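import Pool.Agent.H180.PG.Stm

/-!
Project PG, job Neg: the counting argument.
-/

set_option autoImplicit false

open Set Topology Cardinal

namespace Pool.Agent.Q208.PG

/-- a countable set of elements of `N` is listed by a function into `Option N` -/
theorem enum {N : Type} {C : Set N} (hC : C.Countable) :
    ∃ g : ℕ → Option N, ∀ x : N, x ∈ C ↔ ∃ n, g n = some x := by
  rcases Set.eq_empty_or_nonempty C with h | h
  · refine ⟨fun _ => none, fun x => ⟨fun hx => ?_, fun ⟨n, hn⟩ => ?_⟩⟩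
    · rw [h] at hx
      exact hx.elim
    · exact absurd hn (by simp)
  · obtain ⟨f, hf⟩ := hC.exists_eq_range h
    refine ⟨fun n => some (f n), fun x => ?_⟩
    rw [hf]
    simp

theorem neg : Pool.Agent.H180.PG.S_Neg := by
  classical
  intro Γ _ chain T κ hκ hκ0 hN hT hs hsep S hS
  have henum : ∀ b : T, ∃ g : ℕ → Option {γ // γ ∉ T}, ∀ x : {γ // γ ∉ T},
      x.1 ∈ S b.1 ↔ ∃ n, g n = some x := by
    intro b
    have hc : {x : {γ // γ ∉ T} | x.1 ∈ S b.1}.Countable :=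
      (hS b.1 b.2).preimage Subtype.val_injective
    obtain ⟨g, hg⟩ := enum hc
    exact ⟨g, fun x => (hg x)⟩
  have hss : ∀ b : T, ∃ s : {γ // γ ∉ T}, s.1 ≤ b.1 ∧
      ∀ c : Γ, c ∈ S b.1 → c ∉ T → c ≤ b.1 → c ≤ s.1 := by
    intro b
    obtain ⟨s, h1, h2, h3⟩ := hs b.1 b.2 (S b.1 ∩ {c | c ∉ T}) ((hS b.1 b.2).mono inter_subset_left)
      (fun c hc => hc.2)
    exact ⟨⟨s, h1⟩, h2, fun c hc1 hc2 hc3 => h3 c ⟨hc1, hc2⟩ hc3⟩
  choose g hg using henum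
  choose s hs1 hs2 using hss
  set F : T → (ℕ → Option {γ // γ ∉ T}) × {γ // γ ∉ T} := fun b => (g b, s b) with hF
  -- cardinalities
  have hP1 : #(ℕ → Option {γ // γ ∉ T}) ≤ κ := by
    have h1 : #(ℕ → Option {γ // γ ∉ T}) = (#{γ // γ ∉ T} + 1) ^ ℵ₀ := by
      rw [← Cardinal.mk_option, ← Cardinal.mk_nat, Cardinal.power_def]
    rw [h1]
    refine (Cardinal.power_le_power_right ?_).trans hκ0
    exact Cardinal.add_le_of_le hκ hN (Cardinal.one_le_aleph0.trans hκ)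
  have hP : #((ℕ → Option {γ // γ ∉ T}) × {γ // γ ∉ T}) ≤ κ := by
    rw [Cardinal.mk_prod, Cardinal.lift_id, Cardinal.lift_id]
    exact Cardinal.mul_le_of_le hκ hP1 hN
  have hPN : #(((ℕ → Option {γ // γ ∉ T}) × {γ // γ ∉ T}) × {γ // γ ∉ T}) ≤ κ := by
    rw [Cardinal.mk_prod, Cardinal.lift_id, Cardinal.lift_id]
    exact Cardinal.mul_le_of_le hκ hP hN
  -- the bad elements
  set G : ((ℕ → Option {γ // γ ∉ T}) × {γ // γ ∉ T}) × {γ // γ ∉ T} → Set T := fun p =>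
    if {b' : T | F b' = p.1 ∧ p.2.1 ≤ b'.1}.Finite then {b' : T | F b' = p.1 ∧ p.2.1 ≤ b'.1} else ∅
    with hG
  set B : Set T := ⋃ p, G p with hB
  have hBc : #B ≤ κ := by
    refine (Cardinal.mk_iUnion_le G).trans ?_
    refine Cardinal.mul_le_of_le hκ hPN ((ciSup_le' fun p => ?_).trans hκ)
    change #(G p) ≤ ℵ₀
    have hfin : (G p).Finite := by
      simp only [hG]
      split_ifs with h
      · exact h
      · exact Set.finite_empty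
    exact hfin.countable.le_aleph0
  have hgood : κ < #(Bᶜ : Set T) := by
    by_contra hcon
    have h1 : #T ≤ κ := by
      rw [← Cardinal.mk_sum_compl B]
      exact Cardinal.add_le_of_le hκ hBc (not_lt.mp hcon)
    exact absurd hT (not_lt.mpr h1)
  have hninj : ¬ Function.Injective (fun b : (Bᶜ : Set T) => F b.1) := fun hinj =>
    absurd hgood (not_lt.mpr ((Cardinal.mk_le_of_injective hinj).trans hP))
  obtain ⟨b₁, b₂, hFb, hne⟩ : ∃ b₁ b₂ : (Bᶜ : Set T), F b₁.1 = F b₂.1 ∧ b₁ ≠ b₂ := by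
    unfold Function.Injective at hninj
    push Not at hninj
    exact hninj
  have hne1 : b₁.1.1 ≠ b₂.1.1 := fun h => hne (Subtype.ext (Subtype.ext h))
  obtain ⟨t₁, ht1, ht1a, ht1b⟩ := hsep b₁.1.1 b₁.1.2 b₂.1.1 b₂.1.2 hne1
  obtain ⟨t₂, ht2, ht2a, ht2b⟩ := hsep b₂.1.1 b₂.1.2 b₁.1.1 b₁.1.2 (Ne.symm hne1)
  have hinf : ∀ (b : (Bᶜ : Set T)) (t : Γ) (ht : t ∉ T), t ≤ b.1.1 →
      {b' : T | F b' = F b.1 ∧ t ≤ b'.1}.Infinite := by
    intro b t ht htb hfin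
    refine b.2 (mem_iUnion.mpr ⟨(F b.1, ⟨t, ht⟩), ?_⟩)
    have h : {b' : T | F b' = ((F b.1, (⟨t, ht⟩ : {γ // γ ∉ T})) :
        ((ℕ → Option {γ // γ ∉ T}) × {γ // γ ∉ T}) × {γ // γ ∉ T}).1 ∧
        ((F b.1, (⟨t, ht⟩ : {γ // γ ∉ T})) :
        ((ℕ → Option {γ // γ ∉ T}) × {γ // γ ∉ T}) × {γ // γ ∉ T}).2.1 ≤ b'.1}.Finite := hfin
    simp only [hG]
    rw [if_pos h]
    exact ⟨rfl, htb⟩
  set D : Γ → Set Γ := fun t => Subtype.val '' {b' : T | F b' = F b₁.1 ∧ t ≤ b'.1} with hD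
  have hmem : ∀ t b, b ∈ D t ↔ ∃ h : b ∈ T, F ⟨b, h⟩ = F b₁.1 ∧ t ≤ b := by
    intro t b
    constructor
    · rintro ⟨b', ⟨h1, h2⟩, rfl⟩
      exact ⟨b'.2, h1, h2⟩
    · rintro ⟨h, h1, h2⟩
      exact ⟨⟨b, h⟩, ⟨h1, h2⟩, rfl⟩
  have hall : ∀ b ∈ D t₁ ∪ D t₂, ∃ h : b ∈ T, F ⟨b, h⟩ = F b₁.1 := by
    rintro b (hb | hb)
    · obtain ⟨h, h1, -⟩ := (hmem _ _).mp hb
      exact ⟨h, h1⟩
    · obtain ⟨h, h1, -⟩ := (hmem _ _).mp hb
      exact ⟨h, h1⟩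
  refine ⟨t₁, D t₁, D t₂, ?_, ?_, ?_, ?_, ?_, ?_, ?_⟩
  · intro b hb
    exact ((hmem _ _).mp hb).1
  · intro b hb
    exact ((hmem _ _).mp hb).1
  · exact (hinf b₁ t₁ ht1 ht1a).image Subtype.val_injective.injOn
  · have h := hinf b₂ t₂ ht2 ht2a
    rw [← hFb] at h
    exact h.image Subtype.val_injective.injOn
  · intro b hb
    exact ((hmem _ _).mp hb).2.2
  · intro b hb h1
    have h2 := ((hmem _ _).mp hb).2.2
    rcases chain t₁ t₂ b h1 h2 with h | h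
    · exact ht1b (h.trans ht2a)
    · exact ht2b (h.trans ht1a)
  · intro b hb γ hγ hγT a ha a' ha' hγa
    obtain ⟨hbT, hbF⟩ := hall b hb
    obtain ⟨haT, haF⟩ := hall a ha
    obtain ⟨haT', haF'⟩ := hall a' ha'
    -- `γ ∈ S a`
    have h1 : g ⟨b, hbT⟩ = g ⟨a, haT⟩ := congrArg Prod.fst (hbF.trans haF.symm)
    have h2 : s ⟨a, haT⟩ = s ⟨a', haT'⟩ := congrArg Prod.snd (haF.trans haF'.symm)
    have h3 : γ ∈ S a := by
      have h4 := (hg ⟨b, hbT⟩ ⟨γ, hγT⟩).mp hγ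
      rw [h1] at h4
      exact (hg ⟨a, haT⟩ ⟨γ, hγT⟩).mpr h4
    have h5 := hs2 ⟨a, haT⟩ γ h3 hγT hγa
    rw [h2] at h5
    exact h5.trans (hs1 ⟨a', haT'⟩)

end Pool.Agent.Q208.PG
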